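import Pool.Agent.Helper9.MP.Lib

set_option autoImplicit false

namespace Pool.Agent.Helper96.MP

open Complex MeasureTheory Filter Topology
open scoped MatrixGroups

theorem st_ENT : ST_ENT := by
  intro n A B C D z η η' hdet hn hz hη hη' hmo
  set s : ℝ := Real.sqrt n with hs
  have hnR : (1 : ℝ) ≤ n := by exact_mod_cast hn
  have hs2 : s ^ 2 = n := Real.sq_sqrt (by linarith)
  have hs0 : 0 < s := Real.sqrt_pos.2 (by linarith)
  obtain ⟨hre, him⟩ : |z.re| ≤ 1 / 2 ∧ 4 / 5 ≤ z.im := hz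
  set y : ℝ := z.im with hy
  have hy0 : 0 < y := by linarith
  have h1 : |η.im - y| ≤ y / 4 := by
    have := Complex.abs_im_le_norm (η - z)
    rw [Complex.sub_im] at this
    exact this.trans hη
  have h2 : |η'.im - y| ≤ y / 4 := by
    have := Complex.abs_im_le_norm (η' - z)
    rw [Complex.sub_im] at this
    exact this.trans hη'
  have h3 : |η.re - z.re| ≤ y / 4 := by
    have := Complex.abs_re_le_norm (η - z)
    rw [Complex.sub_re] at this
    exact this.trans hη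
  have h4 : |η'.re - z.re| ≤ y / 4 := by
    have := Complex.abs_re_le_norm (η' - z)
    rw [Complex.sub_re] at this
    exact this.trans hη'
  rw [abs_le] at h1 h2 hre
  have hzn : ‖z‖ ≤ 1 / 2 + y := by
    have := Complex.norm_le_abs_re_add_abs_im z
    rw [← hy, abs_of_pos hy0] at this
    have h5 : |z.re| ≤ 1 / 2 := abs_le.2 hre
    linarith
  have hnη : ‖η‖ ≤ 1 / 2 + 5 / 4 * y := by
    have e : η = z + (η - z) := by ring
    rw [e]
    refine (norm_add_le _ _).trans ?_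
    linarith
  have hnη' : ‖η'‖ ≤ 1 / 2 + 5 / 4 * y := by
    have e : η' = z + (η' - z) := by ring
    rw [e]
    refine (norm_add_le _ _).trans ?_
    linarith
  have hreη : |η.re| ≤ 1 / 2 + y / 4 := by
    have e : η.re = z.re + (η.re - z.re) := by ring
    rw [e]
    refine (abs_add_le _ _).trans ?_
    have h5 : |z.re| ≤ 1 / 2 := abs_le.2 hre
    linarith
  have hreη' : |η'.re| ≤ 1 / 2 + y / 4 := by
    have e : η'.re = z.re + (η'.re - z.re) := by ring
    rw [e]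
    refine (abs_add_le _ _).trans ?_
    have h5 : |z.re| ≤ 1 / 2 := abs_le.2 hre
    linarith
  have hηim : 0 < η.im := by linarith
  have hη'im : 0 < η'.im := by linarith
  set w : ℂ := (C : ℂ) * η + (D : ℂ) with hw
  have hw0 : w ≠ 0 := by
    intro h0
    have hre0 : (C : ℝ) * η.re + (D : ℝ) = 0 := by
      have := congrArg Complex.re h0
      simpa [hw] using this
    have him0 : (C : ℝ) * η.im = 0 := by
      have := congrArg Complex.im h0
      simpa [hw] using this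
    have hC : (C : ℝ) = 0 := by
      rcases mul_eq_zero.1 him0 with h | h
      · exact h
      · exact absurd h hηim.ne'
    have hD : (D : ℝ) = 0 := by rw [hC] at hre0; linarith
    have hC' : C = 0 := by exact_mod_cast hC
    have hD' : D = 0 := by exact_mod_cast hD
    rw [hC', hD'] at hdet
    simp at hdet
    omega
  have hwn : 0 < ‖w‖ := norm_pos_iff.2 hw0
  have him2 := Lib.mo_im A B C D η hw0
  rw [hmo, hdet, ← hw] at him2
  have hkey : η'.im * ‖w‖ ^ 2 = s ^ 2 * η.im := by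
    rw [him2, hs2]
    field_simp
  have hw2 : ‖w‖ ^ 2 ≤ 5 / 3 * s ^ 2 := by
    have h5 : 3 / 4 * y * ‖w‖ ^ 2 ≤ s ^ 2 * (5 / 4 * y) := by
      have h6 : 3 / 4 * y * ‖w‖ ^ 2 ≤ η'.im * ‖w‖ ^ 2 :=
        mul_le_mul_of_nonneg_right (by linarith) (by positivity)
      have h7 : s ^ 2 * η.im ≤ s ^ 2 * (5 / 4 * y) :=
        mul_le_mul_of_nonneg_left (by linarith) (by positivity)
      linarith
    have h8 : y * ‖w‖ ^ 2 ≤ y * (5 / 3 * s ^ 2) := by linarith
    exact le_of_mul_le_mul_left h8 hy0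
  have hw3 : 3 / 5 * s ^ 2 ≤ ‖w‖ ^ 2 := by
    have h5 : s ^ 2 * (3 / 4 * y) ≤ 5 / 4 * y * ‖w‖ ^ 2 := by
      have h6 : η'.im * ‖w‖ ^ 2 ≤ 5 / 4 * y * ‖w‖ ^ 2 :=
        mul_le_mul_of_nonneg_right (by linarith) (by positivity)
      have h7 : s ^ 2 * (3 / 4 * y) ≤ s ^ 2 * η.im :=
        mul_le_mul_of_nonneg_left (by linarith) (by positivity)
      linarith
    have h8 : y * (3 / 5 * s ^ 2) ≤ y * ‖w‖ ^ 2 := by linarith
    exact le_of_mul_le_mul_left h8 hy0
  have hwle : ‖w‖ ≤ 13 / 10 * s := by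
    have h5 : ‖w‖ ^ 2 ≤ (13 / 10 * s) ^ 2 := by
      rw [mul_pow]
      have h6 : 0 ≤ s ^ 2 := by positivity
      linarith
    exact (pow_le_pow_iff_left₀ (norm_nonneg _) (by positivity) two_ne_zero).1 h5
  -- C
  have hCim : |(C : ℝ)| * η.im ≤ 13 / 10 * s := by
    have h5 : w.im = (C : ℝ) * η.im := by simp [hw]
    have h6 := Complex.abs_im_le_norm w
    rw [h5, abs_mul, abs_of_pos hηim] at h6
    exact h6.trans hwle
  have hC0 : 0 ≤ |(C : ℝ)| := abs_nonneg _
  have hCy : |(C : ℝ)| * y ≤ 26 / 15 * s := by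
    have : |(C : ℝ)| * (3 / 4 * y) ≤ |(C : ℝ)| * η.im :=
      mul_le_mul_of_nonneg_left (by linarith) hC0
    linarith
  have hC1 : |(C : ℝ)| ≤ 13 / 6 * s := by
    have : |(C : ℝ)| * (4 / 5) ≤ |(C : ℝ)| * y := mul_le_mul_of_nonneg_left him hC0
    linarith
  have hCr : |(C : ℝ)| * (1 / 2 + y / 4) ≤ 91 / 60 * s := by linarith
  -- D
  have hD1 : |(D : ℝ)| ≤ 169 / 60 * s := by
    have h5 : w.re = (C : ℝ) * η.re + (D : ℝ) := by simp [hw]
    have h6 := Complex.abs_re_le_norm w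
    have e : (D : ℝ) = w.re - (C : ℝ) * η.re := by rw [h5]; ring
    rw [e]
    have h7 := abs_sub (w.re) ((C : ℝ) * η.re)
    rw [abs_mul] at h7
    have h8 : |(C : ℝ)| * |η.re| ≤ |(C : ℝ)| * (1 / 2 + y / 4) :=
      mul_le_mul_of_nonneg_left hreη hC0
    linarith
  -- A
  have hmo' : η' * w = (A : ℂ) * η + (B : ℂ) := by
    rw [← hmo]
    unfold mo
    rw [← hw]
    field_simp
  set w' : ℂ := (A : ℂ) - (C : ℂ) * η' with hw'
  have hww : w' * w = (n : ℂ) := by
    have hdC : (A : ℂ) * (D : ℂ) - (B : ℂ) * (C : ℂ) = (n : ℂ) := by exact_mod_cast hdet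
    rw [hw', sub_mul, mul_assoc (C : ℂ) η' w, hmo', hw]
    linear_combination hdC
  have hw'n : ‖w'‖ * ‖w‖ = s ^ 2 := by
    rw [← norm_mul, hww, hs2]
    rw [show (n : ℂ) = ((n : ℝ) : ℂ) by push_cast; rfl, Complex.norm_real, Real.norm_eq_abs,
      abs_of_pos (by linarith)]
  have hwge : 77 / 100 * s ≤ ‖w‖ := by
    have h5 : (77 / 100 * s) ^ 2 ≤ ‖w‖ ^ 2 := by
      rw [mul_pow]
      have h6 : 0 ≤ s ^ 2 := by positivity
      linarith
    exact (pow_le_pow_iff_left₀ (by positivity) (norm_nonneg _) two_ne_zero).1 h5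
  have hw'le : ‖w'‖ ≤ 13 / 10 * s := by
    have h5 : ‖w'‖ * (77 / 100 * s) ≤ s ^ 2 := by
      rw [← hw'n]
      exact mul_le_mul_of_nonneg_left hwge (norm_nonneg _)
    have h6 : ‖w'‖ * (77 / 100) ≤ s := by
      have h7 : (‖w'‖ * (77 / 100)) * s ≤ s * s := by linarith
      exact le_of_mul_le_mul_right h7 hs0
    linarith
  have hA1 : |(A : ℝ)| ≤ 169 / 60 * s := by
    have h5 : w'.re = (A : ℝ) - (C : ℝ) * η'.re := by simp [hw']
    have h6 := Complex.abs_re_le_norm w'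
    have e : (A : ℝ) = w'.re + (C : ℝ) * η'.re := by rw [h5]; ring
    rw [e]
    have h7 := abs_add_le (w'.re) ((C : ℝ) * η'.re)
    rw [abs_mul] at h7
    have h8 : |(C : ℝ)| * |η'.re| ≤ |(C : ℝ)| * (1 / 2 + y / 4) :=
      mul_le_mul_of_nonneg_left hreη' hC0
    linarith
  -- B
  have hB1 : |(B : ℝ)| ≤ 9 * s * y := by
    have e : (B : ℂ) = η' * w - (A : ℂ) * η := by rw [hmo']; ring
    have h5 : |(B : ℝ)| = ‖(B : ℂ)‖ := by
      rw [show (B : ℂ) = ((B : ℝ) : ℂ) by push_cast; rfl, Complex.norm_real, Real.norm_eq_abs]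
    rw [h5, e]
    refine (norm_sub_le _ _).trans ?_
    rw [norm_mul, norm_mul]
    have h6 : ‖(A : ℂ)‖ = |(A : ℝ)| := by
      rw [show (A : ℂ) = ((A : ℝ) : ℂ) by push_cast; rfl, Complex.norm_real, Real.norm_eq_abs]
    rw [h6]
    have hb : (1 / 2 + 5 / 4 * y) ≤ 15 / 8 * y := by linarith
    have h7 : ‖η'‖ * ‖w‖ ≤ 15 / 8 * y * (13 / 10 * s) :=
      mul_le_mul (hnη'.trans hb) hwle (norm_nonneg _) (by positivity)
    have h8 : |(A : ℝ)| * ‖η‖ ≤ 169 / 60 * s * (15 / 8 * y) :=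
      mul_le_mul hA1 (hnη.trans hb) (norm_nonneg _) (by positivity)
    have h9 : 0 < s * y := by positivity
    nlinarith
  have hsy : s * (4 / 5) ≤ s * y := mul_le_mul_of_nonneg_left him hs0.le
  refine ⟨?_, hB1, ?_, ?_⟩ <;> linarith

end Pool.Agent.Helper96.MP
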