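import Pool.Agent.Helper96.MP.Defs

set_option autoImplicit false

namespace Pool.Agent.Helper96.MP

open Complex MeasureTheory Filter Topology
open scoped MatrixGroups

lemma eqv_isOpen_UH : IsOpen UH := isOpen_lt continuous_const Complex.continuous_im

lemma eqv_meas_UH : MeasurableSet UH := eqv_isOpen_UH.measurableSet

lemma eqv_det (g : SL(2, ℤ)) : (g 0 0 : ℤ) * g 1 1 - g 0 1 * g 1 0 = 1 := by
  have := g.det_coe
  rw [Matrix.det_fin_two] at this
  linarith

lemma eqv_jj_ne (g : SL(2, ℤ)) {z : ℂ} (hz : z ∈ UH) : jj g z ≠ 0 := by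
  intro h
  have hz' : 0 < z.im := hz
  have him : (jj g z).im = (g 1 0 : ℤ) * z.im := by simp [jj]
  have hre : (jj g z).re = (g 1 0 : ℤ) * z.re + (g 1 1 : ℤ) := by simp [jj]
  rw [h, Complex.zero_im] at him
  rw [h, Complex.zero_re] at hre
  have h1 : ((g 1 0 : ℤ) : ℝ) = 0 := by
    rcases mul_eq_zero.1 him.symm with h1 | h1
    · exact h1
    · exact absurd h1 hz'.ne'
  rw [h1, zero_mul, zero_add] at hre
  have h2 : (g 1 0 : ℤ) = 0 := by exact_mod_cast h1
  have h3 : (g 1 1 : ℤ) = 0 := by exact_mod_cast hre.symm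
  have := eqv_det g
  rw [h2, h3] at this
  simp at this

lemma eqv_im (g : SL(2, ℤ)) {z : ℂ} (hz : z ∈ UH) : (mob g z).im = z.im / ‖jj g z‖ ^ 2 := by
  have h1 := eqv_jj_ne g hz
  have hd := eqv_det g
  have hn : ‖jj g z‖ ^ 2 = Complex.normSq (jj g z) := (Complex.normSq_eq_norm_sq _).symm
  have hns : Complex.normSq (jj g z) ≠ 0 := fun h => h1 (Complex.normSq_eq_zero.1 h)
  rw [hn]
  have e : mob g z = (((g 0 0 : ℤ) : ℂ) * z + ((g 0 1 : ℤ) : ℂ)) / jj g z := rfl
  rw [e, Complex.div_im]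
  have him : (jj g z).im = (g 1 0 : ℤ) * z.im := by simp [jj]
  have hre : (jj g z).re = (g 1 0 : ℤ) * z.re + (g 1 1 : ℤ) := by simp [jj]
  have him2 : (((g 0 0 : ℤ) : ℂ) * z + ((g 0 1 : ℤ) : ℂ)).im = (g 0 0 : ℤ) * z.im := by simp
  have hre2 : (((g 0 0 : ℤ) : ℂ) * z + ((g 0 1 : ℤ) : ℂ)).re =
    (g 0 0 : ℤ) * z.re + (g 0 1 : ℤ) := by simp
  rw [him, hre, him2, hre2, ← sub_div]
  congr 1
  have hd' : ((g 0 0 : ℤ) : ℝ) * ((g 1 1 : ℤ) : ℝ) - ((g 0 1 : ℤ) : ℝ) * ((g 1 0 : ℤ) : ℝ) = 1 := by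
    exact_mod_cast hd
  linear_combination z.im * hd'

lemma eqv_mem (g : SL(2, ℤ)) {z : ℂ} (hz : z ∈ UH) : mob g z ∈ UH := by
  have h : 0 < (mob g z).im := by
    rw [eqv_im g hz]
    have h1 : 0 < ‖jj g z‖ := norm_pos_iff.2 (eqv_jj_ne g hz)
    have h2 : 0 < z.im := hz
    positivity
  exact h

lemma eqv_deriv (g : SL(2, ℤ)) {z : ℂ} (hz : z ∈ UH) :
    HasDerivAt (mob g) ((jj g z ^ 2)⁻¹) z := by
  have h1 := eqv_jj_ne g hz
  have h2 : HasDerivAt (fun z : ℂ => ((g 0 0 : ℤ) : ℂ) * z + ((g 0 1 : ℤ) : ℂ))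
      ((g 0 0 : ℤ) : ℂ) z := by
    simpa using ((hasDerivAt_id z).const_mul ((g 0 0 : ℤ) : ℂ)).add_const ((g 0 1 : ℤ) : ℂ)
  have h3 : HasDerivAt (fun z : ℂ => ((g 1 0 : ℤ) : ℂ) * z + ((g 1 1 : ℤ) : ℂ))
      ((g 1 0 : ℤ) : ℂ) z := by
    simpa using ((hasDerivAt_id z).const_mul ((g 1 0 : ℤ) : ℂ)).add_const ((g 1 1 : ℤ) : ℂ)
  have h4 := h2.div h3 h1
  have hd' : ((g 0 0 : ℤ) : ℂ) * ((g 1 1 : ℤ) : ℂ) - ((g 0 1 : ℤ) : ℂ) * ((g 1 0 : ℤ) : ℂ) = 1 := by
    exact_mod_cast eqv_det g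
  have e : (((g 0 0 : ℤ) : ℂ) * (((g 1 0 : ℤ) : ℂ) * z + ((g 1 1 : ℤ) : ℂ)) -
      (((g 0 0 : ℤ) : ℂ) * z + ((g 0 1 : ℤ) : ℂ)) * ((g 1 0 : ℤ) : ℂ)) /
      (((g 1 0 : ℤ) : ℂ) * z + ((g 1 1 : ℤ) : ℂ)) ^ 2 = (jj g z ^ 2)⁻¹ := by
    rw [inv_eq_one_div]
    congr 1
    linear_combination hd'
  rw [e] at h4
  exact h4

lemma eqv_inj (g : SL(2, ℤ)) : Set.InjOn (mob g) UH := by
  intro z hz w hw h
  have h1 := eqv_jj_ne g hz
  have h2 := eqv_jj_ne g hw
  have e1 : mob g z = (((g 0 0 : ℤ) : ℂ) * z + ((g 0 1 : ℤ) : ℂ)) / jj g z := rfl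
  have e2 : mob g w = (((g 0 0 : ℤ) : ℂ) * w + ((g 0 1 : ℤ) : ℂ)) / jj g w := rfl
  rw [e1, e2, div_eq_div_iff h1 h2] at h
  have hd' : ((g 0 0 : ℤ) : ℂ) * ((g 1 1 : ℤ) : ℂ) - ((g 0 1 : ℤ) : ℂ) * ((g 1 0 : ℤ) : ℂ) = 1 := by
    exact_mod_cast eqv_det g
  unfold jj at h
  linear_combination h - (z - w) * hd'

/-- real derivative of a holomorphic map -/
noncomputable def eqv_D (c : ℂ) : ℂ →L[ℝ] ℂ :=
  ((ContinuousLinearMap.smulRight (1 : ℂ →L[ℂ] ℂ) c).restrictScalars ℝ)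

lemma eqv_D_det (c : ℂ) : (eqv_D c).det = ‖c‖ ^ 2 := by
  rw [← Complex.normSq_eq_norm_sq, ← Algebra.norm_complex_apply, Algebra.norm_apply]
  unfold ContinuousLinearMap.det
  congr 1
  ext1 x
  simp [eqv_D, mul_comm]

lemma eqv_contOn_cc {u : ℂ → ℝ} (hu : ContDiffOn ℝ (⊤ : ℕ∞) u UH) : ContinuousOn (cc u) UH := by
  have h1 : ContinuousOn (fderiv ℝ u) UH :=
    hu.continuousOn_fderiv_of_isOpen eqv_isOpen_UH (by exact_mod_cast le_top)
  have hx : ContinuousOn (ux u) UH := h1.clm_apply continuousOn_const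
  have hy : ContinuousOn (uy u) UH := h1.clm_apply continuousOn_const
  unfold cc
  exact (Complex.continuous_ofReal.comp_continuousOn hx).sub
    (continuousOn_const.mul (Complex.continuous_ofReal.comp_continuousOn hy))

lemma eqv_norm_cc (u : ℂ → ℝ) (z : ℂ) : ‖cc u z‖ ^ 2 = DD u u z := by
  rw [← Complex.normSq_eq_norm_sq, Complex.normSq_apply]
  simp [cc, DD]

lemma eqv_contOn_jj (g : SL(2, ℤ)) : Continuous (jj g) := by
  unfold jj
  fun_prop

/-- first part: equivariance -/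
lemma eqv_part1 (hC : ST_CONF) {N : ℕ} {W : ℂ → ℝ} {ρ : SL(2, ℤ) → ℝ} {u : ℕ → ℂ → ℝ}
    {h : ℂ → ℂ} (hN : 1 ≤ N) (hA : ∀ j, Adm N W ρ (u j)) (hh : DifferentiableOn ℂ h UH)
    (hL : ∀ z0 ∈ UH, ∃ r : ℝ, 0 < r ∧ Metric.closedBall z0 r ⊆ UH ∧
    Tendsto (fun j => ∫ z in Metric.ball z0 r, ‖cc (u j) z - h z‖ ^ 2) atTop (𝓝 0))
    (g : SL(2, ℤ)) (hg : g ∈ CongruenceSubgroup.Gamma0 N) (z0 : ℂ) (hz0 : z0 ∈ UH) :
    h (mob g z0) = jj g z0 ^ 2 * h z0 := by
  have hhc : ContinuousOn h UH := hh.continuousOn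
  obtain ⟨r1, hr1, hB1, hT1⟩ := hL z0 hz0
  obtain ⟨r2, hr2, hB2, hT2⟩ := hL (mob g z0) (eqv_mem g hz0)
  have hmc : ContinuousOn (mob g) UH := fun z hz => (eqv_deriv g hz).continuousAt.continuousWithinAt
  have hca : ContinuousAt (mob g) z0 := (eqv_deriv g hz0).continuousAt
  obtain ⟨δ0, hδ0, hδ0'⟩ := Metric.continuousAt_iff.1 hca r2 hr2
  set δ := min δ0 r1 with hδ
  have hδpos : 0 < δ := lt_min hδ0 hr1
  set D := Metric.ball z0 δ with hD
  have hD1 : D ⊆ Metric.ball z0 r1 := Metric.ball_subset_ball (min_le_right _ _)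
  have hDU : D ⊆ UH := hD1.trans (Metric.ball_subset_closedBall.trans hB1)
  have hcD : Metric.closedBall z0 δ ⊆ UH :=
    (Metric.closedBall_subset_closedBall (min_le_right _ _)).trans hB1
  have hDm : MeasurableSet D := Metric.isOpen_ball.measurableSet
  have himg : mob g '' D ⊆ Metric.ball (mob g z0) r2 := by
    rintro _ ⟨x, hx, rfl⟩
    exact hδ0' (lt_of_lt_of_le (Metric.mem_ball.1 hx) (min_le_left _ _))
  set k : ℂ → ℂ := fun z => (jj g z ^ 2)⁻¹ * h (mob g z) with hk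
  have hkc : ContinuousOn k UH := by
    refine ContinuousOn.mul ?_ (hhc.comp hmc fun z hz => eqv_mem g hz)
    exact ((eqv_contOn_jj g).continuousOn.pow 2).inv₀
      fun z hz => pow_ne_zero 2 (eqv_jj_ne g hz)
  have hccc : ∀ j, ContinuousOn (cc (u j)) UH := fun j => eqv_contOn_cc (hA j).smooth
  -- integrability on closed balls
  have hint : ∀ (F : ℂ → ℝ), ContinuousOn F UH → ∀ (x : ℂ) (r : ℝ),
      Metric.closedBall x r ⊆ UH → IntegrableOn F (Metric.ball x r) := by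
    intro F hF x r hxr
    exact ((hF.mono hxr).integrableOn_compact (isCompact_closedBall x r)).mono_set
      Metric.ball_subset_closedBall
  have hF1 : ∀ j, ContinuousOn (fun z => ‖cc (u j) z - h z‖ ^ 2) UH := fun j =>
    ((hccc j).sub hhc).norm.pow 2
  have hF2 : ∀ j, ContinuousOn (fun z => ‖cc (u j) z - k z‖ ^ 2) UH := fun j =>
    ((hccc j).sub hkc).norm.pow 2
  have hF3 : ContinuousOn (fun z => ‖h z - k z‖ ^ 2) UH := (hhc.sub hkc).norm.pow 2
  -- change of variables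
  have hcv : ∀ j, ∫ z in mob g '' D, ‖cc (u j) z - h z‖ ^ 2 =
      ∫ z in D, ‖cc (u j) z - k z‖ ^ 2 := by
    intro j
    rw [integral_image_eq_integral_abs_det_fderiv_smul volume hDm
      (f' := fun z => eqv_D ((jj g z ^ 2)⁻¹)) _ ((eqv_inj g).mono hDU)]
    · refine setIntegral_congr_fun hDm fun z hz => ?_
      have h1 := (hC N W ρ ρ (u j) (u j) hN (hA j) (hA j) g hg z (hDU hz)).1
      have h2 := eqv_jj_ne g (hDU hz)
      simp only [eqv_D_det, smul_eq_mul]
      rw [abs_of_nonneg (by positivity), h1, ← mul_pow, ← norm_mul]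
      congr 2
      rw [hk]
      simp only
      field_simp
    · intro z hz
      have h1 := (eqv_deriv g (hDU hz)).hasFDerivAt.restrictScalars ℝ
      exact h1.hasFDerivWithinAt
  have hT2' : Tendsto (fun j => ∫ z in D, ‖cc (u j) z - k z‖ ^ 2) atTop (𝓝 0) := by
    refine squeeze_zero (fun j => setIntegral_nonneg hDm fun z _ => by positivity) (fun j => ?_) hT2
    rw [← hcv j]
    refine setIntegral_mono_set (hint _ (hF1 j) _ _ hB2) ?_ ?_
    · exact ae_of_all _ fun z => by positivity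
    · exact LE.le.eventuallyLE himg
  have hT1' : Tendsto (fun j => ∫ z in D, ‖cc (u j) z - h z‖ ^ 2) atTop (𝓝 0) := by
    refine squeeze_zero (fun j => setIntegral_nonneg hDm fun z _ => by positivity) (fun j => ?_) hT1
    refine setIntegral_mono_set (hint _ (hF1 j) _ _ hB1) ?_ ?_
    · exact ae_of_all _ fun z => by positivity
    · exact LE.le.eventuallyLE hD1
  have hle : ∀ j, ∫ z in D, ‖h z - k z‖ ^ 2 ≤
      2 * (∫ z in D, ‖cc (u j) z - h z‖ ^ 2) + 2 * ∫ z in D, ‖cc (u j) z - k z‖ ^ 2 := by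
    intro j
    rw [← integral_const_mul, ← integral_const_mul, ← integral_add]
    · refine setIntegral_mono_on (hint _ hF3 _ _ hcD) ?_ hDm fun z _ => ?_
      · exact ((hint _ (hF1 j) _ _ hcD).const_mul 2).add ((hint _ (hF2 j) _ _ hcD).const_mul 2)
      · have e : h z - k z = (cc (u j) z - k z) - (cc (u j) z - h z) := by ring
        rw [e]
        have h1 := norm_sub_le (cc (u j) z - k z) (cc (u j) z - h z)
        have h2 := norm_nonneg ((cc (u j) z - k z) - (cc (u j) z - h z))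
        nlinarith [sq_nonneg (‖cc (u j) z - k z‖ - ‖cc (u j) z - h z‖)]
    · exact (hint _ (hF1 j) _ _ hcD).const_mul 2
    · exact (hint _ (hF2 j) _ _ hcD).const_mul 2
  have h0 : ∫ z in D, ‖h z - k z‖ ^ 2 ≤ 0 := by
    have hlim : Tendsto (fun j => 2 * (∫ z in D, ‖cc (u j) z - h z‖ ^ 2) +
        2 * ∫ z in D, ‖cc (u j) z - k z‖ ^ 2) atTop (𝓝 (2 * 0 + 2 * 0)) :=
      (hT1'.const_mul 2).add (hT2'.const_mul 2)
    rw [mul_zero, add_zero] at hlim
    exact ge_of_tendsto' hlim hle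
  have h00 : ∫ z in D, ‖h z - k z‖ ^ 2 = 0 :=
    le_antisymm h0 (setIntegral_nonneg hDm fun z _ => by positivity)
  rw [setIntegral_eq_zero_iff_of_nonneg_ae (ae_of_all _ fun z => by positivity)
    (hint _ hF3 _ _ hcD)] at h00
  have heq := Measure.eqOn_open_of_ae_eq h00 Metric.isOpen_ball (hF3.mono hDU) continuousOn_const
  have h5 := heq (Metric.mem_ball_self hδpos)
  simp only [Pi.zero_apply] at h5
  have h6 : h z0 - k z0 = 0 := by
    rw [← norm_eq_zero]
    exact pow_eq_zero_iff (two_ne_zero) |>.1 h5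
  rw [sub_eq_zero] at h6
  rw [h6, hk]
  have := eqv_jj_ne g hz0
  field_simp

/-- exhaustion by compact sets -/
def eqv_K (n : ℕ) : Set ℂ := {z | |z.re| ≤ n ∧ 1 / ((n : ℝ) + 1) ≤ z.im ∧ z.im ≤ n}

lemma eqv_K_closed (n : ℕ) : IsClosed (eqv_K n) := by
  refine IsClosed.inter ?_ (IsClosed.inter ?_ ?_)
  · exact isClosed_le (continuous_abs.comp Complex.continuous_re) continuous_const
  · exact isClosed_le continuous_const Complex.continuous_im
  · exact isClosed_le Complex.continuous_im continuous_const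

lemma eqv_K_compact (n : ℕ) : IsCompact (eqv_K n) := by
  refine Metric.isCompact_of_isClosed_isBounded (eqv_K_closed n) ?_
  refine (Metric.isBounded_closedBall (x := (0 : ℂ)) (r := 2 * n)).subset fun z hz => ?_
  rw [mem_closedBall_zero_iff]
  obtain ⟨h1, h2, h3⟩ := hz
  have h4 : (0:ℝ) < 1 / ((n : ℝ) + 1) := by positivity
  calc ‖z‖ ≤ |z.re| + |z.im| := Complex.norm_le_abs_re_add_abs_im z
    _ ≤ n + n := by
        rw [abs_of_nonneg (by linarith : 0 ≤ z.im)]
        linarith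
    _ = 2 * n := by ring

lemma eqv_K_sub (n : ℕ) : eqv_K n ⊆ UH := by
  intro z hz
  have h4 : (0:ℝ) < 1 / ((n : ℝ) + 1) := by positivity
  exact h4.trans_le hz.2.1

lemma eqv_K_ev {z : ℂ} (hz : z ∈ UH) : ∀ᶠ n : ℕ in atTop, z ∈ eqv_K n := by
  have hz' : 0 < z.im := hz
  have h1 := (tendsto_natCast_atTop_atTop (R := ℝ)).eventually_ge_atTop |z.re|
  have h2 := (tendsto_natCast_atTop_atTop (R := ℝ)).eventually_ge_atTop z.im
  have h3 := (tendsto_one_div_add_atTop_nhds_zero_nat (𝕜 := ℝ)).eventually (gt_mem_nhds hz')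
  filter_upwards [h1, h2, h3] with n h1 h2 h3
  exact ⟨h1, h3.le, h2⟩

theorem st_EQV (hC : ST_CONF) : ST_EQV := by
  intro N W ρ u h hN hW hA hB hh hL
  refine ⟨fun g hg z hz => eqv_part1 hC hN hA hh hL g hg z hz, ?_⟩
  obtain ⟨B, hB⟩ := hB
  have hhc : ContinuousOn h UH := hh.continuousOn
  have hccc : ∀ j, ContinuousOn (cc (u j)) UH := fun j => eqv_contOn_cc (hA j).smooth
  have hF1 : ∀ j, ContinuousOn (fun z => ‖cc (u j) z - h z‖ ^ 2) UH := fun j =>
    ((hccc j).sub hhc).norm.pow 2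
  -- local convergence on compact sets
  have hK : ∀ K : Set ℂ, IsCompact K → K ⊆ UH →
      Tendsto (fun j => ∫⁻ z in K, ENNReal.ofReal (‖cc (u j) z - h z‖ ^ 2)) atTop (𝓝 0) := by
    intro K hK hKU
    refine hK.induction_on (p := fun K => Tendsto (fun j => ∫⁻ z in K,
      ENNReal.ofReal (‖cc (u j) z - h z‖ ^ 2)) atTop (𝓝 0)) ?_ ?_ ?_ ?_
    · simp
    · intro s t hst ht
      exact tendsto_of_tendsto_of_tendsto_of_le_of_le tendsto_const_nhds ht
        (fun j => zero_le) (fun j => lintegral_mono_set hst)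
    · intro s t hs ht
      have h1 := hs.add ht
      rw [add_zero] at h1
      exact tendsto_of_tendsto_of_tendsto_of_le_of_le tendsto_const_nhds h1
        (fun j => zero_le) (fun j => lintegral_union_le _ _ _)
    · intro x hx
      obtain ⟨r, hr, hr1, hr2⟩ := hL x (hKU hx)
      refine ⟨Metric.ball x r, mem_nhdsWithin_of_mem_nhds (Metric.ball_mem_nhds x hr), ?_⟩
      have h1 : ∀ j, ∫⁻ z in Metric.ball x r, ENNReal.ofReal (‖cc (u j) z - h z‖ ^ 2) =
          ENNReal.ofReal (∫ z in Metric.ball x r, ‖cc (u j) z - h z‖ ^ 2) := by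
        intro j
        rw [ofReal_integral_eq_lintegral_ofReal]
        · exact (((hF1 j).mono hr1).integrableOn_compact (isCompact_closedBall x r)).mono_set
            Metric.ball_subset_closedBall
        · exact ae_of_all _ fun z => by positivity
      simp only [h1]
      have h2 := ENNReal.tendsto_ofReal hr2
      rw [ENNReal.ofReal_zero] at h2
      exact h2
  -- energies
  have hE : ∀ j, ∫⁻ z in UH, ENNReal.ofReal (W z * ‖cc (u j) z‖ ^ 2) ≤ ENNReal.ofReal B := by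
    intro j
    simp only [eqv_norm_cc]
    rw [← ofReal_integral_eq_lintegral_ofReal (hA j).fin]
    · exact ENNReal.ofReal_le_ofReal (hB j)
    · refine ae_of_all _ fun z => ?_
      have h1 : 0 ≤ DD (u j) (u j) z := by
        rw [← eqv_norm_cc]; positivity
      exact mul_nonneg (hW.nonneg z) h1
  have hWm : AEMeasurable (fun z => W z) (volume.restrict UH) := hW.meas.aemeasurable
  have hbound : ∀ n : ℕ, ∫⁻ z in eqv_K n, ENNReal.ofReal (W z * ‖h z‖ ^ 2) ≤
      2 * ENNReal.ofReal B := by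
    intro n
    have hle : ∀ j, ∫⁻ z in eqv_K n, ENNReal.ofReal (W z * ‖h z‖ ^ 2) ≤
        2 * (∫⁻ z in eqv_K n, ENNReal.ofReal (‖cc (u j) z - h z‖ ^ 2)) +
          2 * ENNReal.ofReal B := by
      intro j
      have hmeas1 : AEMeasurable (fun z => ENNReal.ofReal (‖cc (u j) z - h z‖ ^ 2))
          (volume.restrict (eqv_K n)) := by
        have h1 : ContinuousOn (fun z => ‖cc (u j) z - h z‖ ^ 2) (eqv_K n) :=
          (hF1 j).mono (eqv_K_sub n)
        exact (h1.aemeasurable (eqv_K_closed n).measurableSet).ennreal_ofReal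
      calc ∫⁻ z in eqv_K n, ENNReal.ofReal (W z * ‖h z‖ ^ 2)
          ≤ ∫⁻ z in eqv_K n, (2 * ENNReal.ofReal (‖cc (u j) z - h z‖ ^ 2) +
              2 * ENNReal.ofReal (W z * ‖cc (u j) z‖ ^ 2)) := by
            refine lintegral_mono fun z => ?_
            have h2 : (2 : ENNReal) = ENNReal.ofReal 2 := by simp
            rw [h2, ← ENNReal.ofReal_mul (by norm_num), ← ENNReal.ofReal_mul (by norm_num),
              ← ENNReal.ofReal_add (by positivity)
                (mul_nonneg (by norm_num) (mul_nonneg (hW.nonneg z) (by positivity)))]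
            apply ENNReal.ofReal_le_ofReal
            have hw0 := hW.nonneg z
            have hw1 := hW.le_one z
            have e : h z = cc (u j) z - (cc (u j) z - h z) := by ring
            have h3 : ‖h z‖ ^ 2 ≤ 2 * ‖cc (u j) z - h z‖ ^ 2 + 2 * ‖cc (u j) z‖ ^ 2 := by
              have h4 : ‖h z‖ ≤ ‖cc (u j) z‖ + ‖cc (u j) z - h z‖ := by
                conv_lhs => rw [e]
                exact norm_sub_le _ _
              have h5 := norm_nonneg (h z)
              nlinarith [sq_nonneg (‖cc (u j) z‖ - ‖cc (u j) z - h z‖)]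
            have h6 : W z * ‖h z‖ ^ 2 ≤
                W z * (2 * ‖cc (u j) z - h z‖ ^ 2 + 2 * ‖cc (u j) z‖ ^ 2) :=
              mul_le_mul_of_nonneg_left h3 hw0
            have h7 : W z * ‖cc (u j) z - h z‖ ^ 2 ≤ 1 * ‖cc (u j) z - h z‖ ^ 2 :=
              mul_le_mul_of_nonneg_right hw1 (by positivity)
            linarith
        _ = 2 * (∫⁻ z in eqv_K n, ENNReal.ofReal (‖cc (u j) z - h z‖ ^ 2)) +
              2 * ∫⁻ z in eqv_K n, ENNReal.ofReal (W z * ‖cc (u j) z‖ ^ 2) := by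
            rw [lintegral_add_left' (hmeas1.const_mul 2), lintegral_const_mul'' 2 hmeas1,
              lintegral_const_mul' 2 _ (by norm_num)]
        _ ≤ _ := by
            gcongr
            exact (lintegral_mono_set (eqv_K_sub n)).trans (hE j)
    have hlim : Tendsto (fun j => 2 * (∫⁻ z in eqv_K n,
        ENNReal.ofReal (‖cc (u j) z - h z‖ ^ 2)) + 2 * ENNReal.ofReal B) atTop
        (𝓝 (2 * 0 + 2 * ENNReal.ofReal B)) := by
      refine Tendsto.add_const _ ?_
      exact ENNReal.Tendsto.const_mul (hK _ (eqv_K_compact n) (eqv_K_sub n))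
        (Or.inr (by norm_num))
    rw [mul_zero, zero_add] at hlim
    exact ge_of_tendsto' hlim hle
  have hcov : AECover (volume.restrict UH) atTop eqv_K := by
    refine ⟨?_, fun n => (eqv_K_closed n).measurableSet⟩
    rw [ae_restrict_iff' eqv_meas_UH]
    exact ae_of_all _ fun z hz => eqv_K_ev hz
  refine hcov.integrable_of_lintegral_enorm_bounded (2 * B) ?_ (Eventually.of_forall fun n => ?_)
  · refine (hW.meas.aestronglyMeasurable).mul ?_
    exact (hhc.norm.pow 2).aestronglyMeasurable eqv_meas_UH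
  · have h1 : ∫⁻ z in eqv_K n, ‖W z * ‖h z‖ ^ 2‖ₑ ∂(volume.restrict UH) ≤
        ∫⁻ z in eqv_K n, ENNReal.ofReal (W z * ‖h z‖ ^ 2) := by
      rw [Measure.restrict_restrict (eqv_K_closed n).measurableSet,
        Set.inter_eq_left.2 (eqv_K_sub n)]
      refine lintegral_mono fun z => ?_
      rw [Real.enorm_eq_ofReal (mul_nonneg (hW.nonneg z) (by positivity))]
    refine h1.trans ((hbound n).trans ?_)
    have h2 : (2 : ENNReal) = ENNReal.ofReal 2 := by simp
    rw [h2, ← ENNReal.ofReal_mul (by norm_num)]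

end Pool.Agent.Helper96.MP
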