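import Pool.Agent.Helper96.MP.DefsB

/-!
# MP_bde085_nt, module KFIB: functions with vanishing sums over the fibres of a map
-/

set_option autoImplicit false

namespace Pool.Agent.Helper96.MP

theorem st_KFIB : ST_KFIB := by
  classical
  intro P P' _ _ π q hq hfib V hV
  have hne : ∀ y, ∃ x, π x = y := by
    intro y
    have h1 := (hfib y).1
    have h2 : 0 < Nat.card {x // π x = y} := by omega
    obtain ⟨x⟩ := (Nat.card_pos_iff.mp h2).1
    exact ⟨x.1, x.2⟩
  choose s hs using hne
  -- sums over the fibres
  have hsum : ∀ (g : P → ℝ) (y : P'), ∑ᶠ x : {x // π x = y}, g x.1 =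
      ∑ x, if π x = y then g x else 0 := by
    intro g y
    rw [finsum_eq_sum_of_fintype, ← Finset.sum_filter]
    exact (Finset.sum_subtype _ (by simp) g).symm
  have hcardf : ∀ y, (Nat.card {x // π x = y}) = (Finset.univ.filter (fun x => π x = y)).card := by
    intro y
    rw [Nat.card_eq_fintype_card, Fintype.card_subtype]
  have hι : ∀ f : P → ℝ, ∑ i : {x : P // ¬ x = s (π x)}, f i.1 = ∑ x, f x - ∑ y, f (s y) := by
    intro f
    have h1 : ∑ y, f (s y) = ∑ x ∈ Finset.univ.filter (fun x => x = s (π x)), f x := by
      refine Finset.sum_nbij' s π ?_ ?_ ?_ ?_ ?_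
      · intro y _
        simp [hs]
      · intro x _
        simp
      · intro y _
        exact hs y
      · intro x hx
        exact ((Finset.mem_filter.mp hx).2).symm
      · intro y _
        rfl
    have h2 : ∑ i : {x : P // ¬ x = s (π x)}, f i.1 =
        ∑ x ∈ Finset.univ.filter (fun x => ¬ x = s (π x)), f x :=
      (Finset.sum_subtype _ (by simp) f).symm
    have h3 := Finset.sum_filter_add_sum_filter_not Finset.univ (fun x : P => x = s (π x)) f
    rw [h1, h2]
    linarith
  -- cardinalities
  have hcP : (Fintype.card P : ℝ) = ∑ y, (Nat.card {x // π x = y} : ℝ) := by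
    have h := Finset.card_eq_sum_card_fiberwise (f := π) (s := Finset.univ) (t := Finset.univ)
      (by intro x _; simp)
    rw [Finset.card_univ] at h
    rw [h]
    push_cast
    refine Finset.sum_congr rfl ?_
    intro y _
    rw [hcardf y]
  have hcle : (Fintype.card P : ℝ) ≤ ((q : ℝ) + 1) * Fintype.card P' := by
    rw [hcP]
    calc ∑ y, (Nat.card {x // π x = y} : ℝ) ≤ ∑ _y : P', ((q : ℝ) + 1) := by
          refine Finset.sum_le_sum ?_
          intro y _
          exact_mod_cast (hfib y).2
      _ = ((q : ℝ) + 1) * Fintype.card P' := by
          rw [Finset.sum_const, Finset.card_univ, nsmul_eq_mul]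
          ring
  have hcge : (q : ℝ) * Fintype.card P' ≤ Fintype.card P := by
    rw [hcP]
    calc (q : ℝ) * Fintype.card P' = ∑ _y : P', (q : ℝ) := by
          rw [Finset.sum_const, Finset.card_univ, nsmul_eq_mul]
          ring
      _ ≤ ∑ y, (Nat.card {x // π x = y} : ℝ) := by
          refine Finset.sum_le_sum ?_
          intro y _
          exact_mod_cast (hfib y).1
  have hcι : (Fintype.card {x : P // ¬ x = s (π x)} : ℝ) = Fintype.card P - Fintype.card P' := by
    have h := hι (fun _ => 1)
    simpa using h
  have hq0 : (0 : ℝ) < q := by
    have : 0 < q := by omega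
    exact_mod_cast this
  have hq1 : (1 : ℝ) ≤ (q : ℝ) + 1 := by linarith
  -- the basis
  let b : {x : P // ¬ x = s (π x)} → P → ℤ := fun i x =>
    (if x = i.1 then 1 else 0) - (if x = s (π i.1) then 1 else 0)
  have hb : ∀ i x, ((b i x : ℤ) : ℝ) =
      (if x = i.1 then (1 : ℝ) else 0) - (if x = s (π i.1) then 1 else 0) := by
    intro i x
    simp only [b]
    push_cast
    rfl
  have hns : ∀ i j : {x : P // ¬ x = s (π x)}, i.1 ≠ s (π j.1) := by
    intro i j h
    apply i.2
    have h2 : π i.1 = π j.1 := by rw [h, hs]
    rw [h2]
    exact h
  have hbev : ∀ i j : {x : P // ¬ x = s (π x)}, ((b i j.1 : ℤ) : ℝ) = if i = j then 1 else 0 := by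
    intro i j
    rw [hb, if_neg (hns j i), sub_zero]
    by_cases h : i = j
    · rw [if_pos h, if_pos (by rw [h])]
    · rw [if_neg h, if_neg (fun h2 => h (Subtype.ext h2.symm))]
  refine ⟨Fintype.card {x : P // ¬ x = s (π x)}, ((q : ℝ) + 1) ^ (Fintype.card P'), ?_, ?_, ?_, ?_⟩
  · refine ⟨{x : P // ¬ x = s (π x)}, inferInstance, inferInstance, b, rfl, ?_, ?_, ?_⟩
    · rw [Fintype.linearIndependent_iff]
      intro c hc j
      have h := congrFun hc j.1
      rw [Finset.sum_apply] at h
      simp only [Pi.smul_apply, smul_eq_mul, Pi.zero_apply] at h
      have h2 : ∑ i, c i * ((b i j.1 : ℤ) : ℝ) = c j := by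
        rw [Finset.sum_eq_single j]
        · rw [hbev, if_pos rfl, mul_one]
        · intro i _ hij
          rw [hbev, if_neg hij, mul_zero]
        · intro h
          exact absurd (Finset.mem_univ j) h
      rw [h2] at h
      exact h
    · apply le_antisymm
      · rw [Submodule.span_le]
        rintro _ ⟨i, rfl⟩
        show _ ∈ V
        rw [hV]
        intro y
        refine (hsum (fun x => ((b i x : ℤ) : ℝ)) y).trans ?_
        have h1 : ∀ x, (if π x = y then ((b i x : ℤ) : ℝ) else 0) =
            (if x = i.1 then (if π i.1 = y then (1 : ℝ) else 0) else 0) -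
            (if x = s (π i.1) then (if π i.1 = y then (1 : ℝ) else 0) else 0) := by
          intro x
          rw [hb]
          by_cases hx1 : x = i.1
          · have hx2 : ¬ x = s (π i.1) := by rw [hx1]; exact hns i i
            rw [if_pos hx1, if_neg hx2, if_pos hx1, if_neg hx2, sub_zero, sub_zero, hx1]
          · by_cases hx2 : x = s (π i.1)
            · have hx3 : π x = π i.1 := by rw [hx2, hs]
              rw [if_neg hx1, if_pos hx2, if_neg hx1, if_pos hx2, hx3]
              by_cases hy : π i.1 = y
              · rw [if_pos hy, if_pos hy]
              · rw [if_neg hy, if_neg hy, sub_zero]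
            · rw [if_neg hx1, if_neg hx2, if_neg hx1, if_neg hx2]
              simp
        rw [Finset.sum_congr rfl (fun x _ => h1 x), Finset.sum_sub_distrib]
        simp
      · intro g hg
        have hg0 := (hV g).mp hg
        have hexp : g = ∑ i : {x : P // ¬ x = s (π x)}, g i.1 • (fun x => ((b i x : ℤ) : ℝ)) := by
          funext x
          rw [Finset.sum_apply]
          simp only [Pi.smul_apply, smul_eq_mul]
          have h1 : ∀ i : {x : P // ¬ x = s (π x)}, g i.1 * ((b i x : ℤ) : ℝ) =
              (fun x' => g x' * ((if x = x' then (1 : ℝ) else 0) -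
                (if x = s (π x') then 1 else 0))) i.1 := by
            intro i
            rw [hb]
          have h0 : ∑ i : {x : P // ¬ x = s (π x)}, g i.1 * ((b i x : ℤ) : ℝ) =
              ∑ x', (fun x' => g x' * ((if x = x' then (1 : ℝ) else 0) -
                (if x = s (π x') then 1 else 0))) x' -
              ∑ y, (fun x' => g x' * ((if x = x' then (1 : ℝ) else 0) -
                (if x = s (π x') then 1 else 0))) (s y) :=
            (Finset.sum_congr rfl (fun i _ => h1 i)).trans (hι (fun x' => g x' *
              ((if x = x' then (1 : ℝ) else 0) - (if x = s (π x') then 1 else 0))))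
          rw [h0]
          have h2 : ∑ y, (fun x' => g x' * ((if x = x' then (1 : ℝ) else 0) -
                (if x = s (π x') then 1 else 0))) (s y) = 0 := by
            apply Finset.sum_eq_zero
            intro y _
            show g (s y) * ((if x = s y then (1 : ℝ) else 0) - (if x = s (π (s y)) then 1 else 0)) = 0
            rw [hs, sub_self, mul_zero]
          rw [h2, sub_zero]
          have h3 : ∑ x', g x' * ((if x = x' then (1 : ℝ) else 0) -
                (if x = s (π x') then 1 else 0)) =
              ∑ x', g x' * (if x = x' then (1 : ℝ) else 0) -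
              ∑ x', g x' * (if x = s (π x') then (1 : ℝ) else 0) := by
            rw [← Finset.sum_sub_distrib]
            refine Finset.sum_congr rfl ?_
            intro x' _
            ring
          have h4 : ∑ x', g x' * (if x = x' then (1 : ℝ) else 0) = g x := by
            simp
          have h5 : ∑ x', g x' * (if x = s (π x') then (1 : ℝ) else 0) = 0 := by
            by_cases hx : x = s (π x)
            · have h6 := hg0 (π x)
              rw [hsum] at h6
              refine Eq.trans ?_ h6
              refine Finset.sum_congr rfl ?_
              intro x' _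
              by_cases h7 : π x' = π x
              · rw [if_pos h7, if_pos (by rw [h7]; exact hx), mul_one]
              · have h8 : ¬ x = s (π x') := by
                  intro h9
                  apply h7
                  rw [h9, hs]
                rw [if_neg h7, if_neg h8, mul_zero]
            · apply Finset.sum_eq_zero
              intro x' _
              have h8 : ¬ x = s (π x') := by
                intro h9
                apply hx
                have h10 : π x = π x' := by rw [h9, hs]
                rw [h10]
                exact h9
              rw [if_neg h8, mul_zero]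
          show g x = ∑ x', g x' * ((if x = x' then (1 : ℝ) else 0) -
                (if x = s (π x') then 1 else 0))
          rw [h3, h4, h5, sub_zero]
        rw [hexp]
        refine Submodule.sum_mem _ ?_
        intro i _
        exact Submodule.smul_mem _ _ (Submodule.subset_span ⟨i, rfl⟩)
    · -- Gram determinant
      let A : Matrix {x : P // ¬ x = s (π x)} P' ℝ := Matrix.of fun i y => if π i.1 = y then 1 else 0
      have hG : (Matrix.of (fun i j : {x : P // ¬ x = s (π x)} =>
          ∑ x, ((b i x : ℤ) : ℝ) * ((b j x : ℤ) : ℝ))) = 1 + A * A.transpose := by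
        ext i j
        rw [Matrix.add_apply, Matrix.mul_apply, Matrix.one_apply]
        show ∑ x, ((b i x : ℤ) : ℝ) * ((b j x : ℤ) : ℝ) = _
        have h1 : ∀ x, ((b i x : ℤ) : ℝ) * ((b j x : ℤ) : ℝ) =
            (if x = i.1 then (if i = j then (1 : ℝ) else 0) else 0) +
            (if x = s (π i.1) then (if π i.1 = π j.1 then (1 : ℝ) else 0) else 0) := by
          intro x
          rw [hb, hb]
          by_cases hx1 : x = i.1
          · have hx2 : ¬ x = s (π i.1) := by rw [hx1]; exact hns i i
            have hx3 : ¬ x = s (π j.1) := by rw [hx1]; exact hns i j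
            rw [if_pos hx1, if_neg hx2, if_neg hx3, if_pos hx1, if_neg hx2]
            by_cases hij : i = j
            · rw [if_pos hij, if_pos (by rw [hx1, hij])]
              ring
            · rw [if_neg hij, if_neg (fun h => hij (Subtype.ext (by rw [← hx1, h])))]
              ring
          · by_cases hx2 : x = s (π i.1)
            · have hx3 : ¬ x = j.1 := by
                rw [hx2]
                exact fun h => hns j i h.symm
              rw [if_neg hx1, if_pos hx2, if_neg hx3, if_neg hx1, if_pos hx2]
              by_cases hij : π i.1 = π j.1
              · rw [if_pos hij, if_pos (by rw [hx2, hij])]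
                ring
              · have hx4 : ¬ x = s (π j.1) := by
                  intro h
                  apply hij
                  rw [← hs (π i.1), ← hx2, h, hs]
                rw [if_neg hij, if_neg hx4]
                ring
            · rw [if_neg hx1, if_neg hx2, if_neg hx1, if_neg hx2]
              ring
        rw [Finset.sum_congr rfl (fun x _ => h1 x), Finset.sum_add_distrib]
        have h2 : ∑ y, A i y * A.transpose y j = if π i.1 = π j.1 then (1 : ℝ) else 0 := by
          show ∑ y, (if π i.1 = y then (1 : ℝ) else 0) * (if π j.1 = y then (1 : ℝ) else 0) = _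
          have : ∀ y, (if π i.1 = y then (1 : ℝ) else 0) * (if π j.1 = y then (1 : ℝ) else 0) =
              if π i.1 = y then (if π j.1 = π i.1 then (1 : ℝ) else 0) else 0 := by
            intro y
            by_cases hy : π i.1 = y
            · rw [if_pos hy, if_pos hy, one_mul, hy]
            · rw [if_neg hy, if_neg hy, zero_mul]
          rw [Finset.sum_congr rfl (fun y _ => this y)]
          rw [Finset.sum_ite_eq]
          by_cases hij : π i.1 = π j.1
          · simp [hij]
          · have hji : ¬ π j.1 = π i.1 := fun h => hij h.symm
            simp [hij, hji]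
        rw [h2]
        simp
      rw [hG, Matrix.det_one_add_mul_comm]
      have hD : (1 + A.transpose * A) =
          Matrix.diagonal (fun y => (Nat.card {x // π x = y} : ℝ)) := by
        ext y y'
        rw [Matrix.add_apply, Matrix.mul_apply, Matrix.one_apply, Matrix.diagonal_apply]
        have h1 : ∑ i, A.transpose y i * A i y' =
            ∑ i : {x : P // ¬ x = s (π x)}, (fun x => (if π x = y then (1 : ℝ) else 0) *
              (if π x = y' then (1 : ℝ) else 0)) i.1 := rfl
        rw [h1.trans (hι (fun x => (if π x = y then (1 : ℝ) else 0) *
              (if π x = y' then (1 : ℝ) else 0)))]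
        by_cases hyy : y = y'
        · subst hyy
          rw [if_pos rfl, if_pos rfl, hcardf y]
          have h2 : ∑ x, (fun x => (if π x = y then (1 : ℝ) else 0) *
              (if π x = y then (1 : ℝ) else 0)) x = ((Finset.univ.filter (fun x => π x = y)).card : ℝ) := by
            rw [Finset.card_filter]
            push_cast
            refine Finset.sum_congr rfl ?_
            intro x _
            by_cases hx : π x = y
            · simp [hx]
            · simp [hx]
          have h3 : ∑ y1, (fun x => (if π x = y then (1 : ℝ) else 0) *
              (if π x = y then (1 : ℝ) else 0)) (s y1) = 1 := by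
            have : ∀ y1, (fun x => (if π x = y then (1 : ℝ) else 0) *
              (if π x = y then (1 : ℝ) else 0)) (s y1) = if y1 = y then (1 : ℝ) else 0 := by
              intro y1
              show (if π (s y1) = y then (1 : ℝ) else 0) * (if π (s y1) = y then (1 : ℝ) else 0) = _
              rw [hs]
              by_cases h : y1 = y
              · simp [h]
              · simp [h]
            rw [Finset.sum_congr rfl (fun y1 _ => this y1)]
            simp
          rw [h2, h3]
          ring
        · rw [if_neg hyy, if_neg hyy]
          have h2 : ∀ x, (if π x = y then (1 : ℝ) else 0) * (if π x = y' then (1 : ℝ) else 0) = 0 := by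
            intro x
            by_cases hx : π x = y
            · have hx' : ¬ π x = y' := by rw [hx]; exact hyy
              rw [if_neg hx', mul_zero]
            · rw [if_neg hx, zero_mul]
          simp only [h2]
          simp
      rw [hD, Matrix.det_diagonal]
      calc ∏ y, (Nat.card {x // π x = y} : ℝ) ≤ ∏ _y : P', ((q : ℝ) + 1) := by
            refine Finset.prod_le_prod ?_ ?_
            · intro y _
              positivity
            · intro y _
              exact_mod_cast (hfib y).2
        _ = ((q : ℝ) + 1) ^ (Fintype.card P') := by
            rw [Finset.prod_const, Finset.card_univ]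
  · exact one_le_pow₀ hq1
  · rw [hcι]
    have h1 : (Fintype.card P : ℝ) / ((q : ℝ) + 1) ≤ Fintype.card P' := by
      rw [div_le_iff₀ (by linarith)]
      linarith
    have h2 : (Fintype.card P : ℝ) * (1 - 1 / ((q : ℝ) + 1)) =
        Fintype.card P - Fintype.card P / ((q : ℝ) + 1) := by ring
    rw [h2]
    linarith
  · rw [Real.log_pow]
    have h1 : (Fintype.card P' : ℝ) ≤ Fintype.card P / q := by
      rw [le_div_iff₀ hq0]
      linarith
    have h2 : 0 ≤ Real.log ((q : ℝ) + 1) := Real.log_nonneg hq1
    calc (Fintype.card P' : ℝ) * Real.log ((q : ℝ) + 1)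
        ≤ (Fintype.card P / q) * Real.log ((q : ℝ) + 1) := mul_le_mul_of_nonneg_right h1 h2
      _ = (Fintype.card P : ℝ) * (Real.log ((q : ℝ) + 1) / q) := by ring

end Pool.Agent.Helper96.MP
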