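import Pool.Agent.Helper9.MP.Lat

/-!
# MP_bde085_nt, block D: WEX, existence of the Atkin-Lehner operators
-/

set_option autoImplicit false

namespace Pool.Agent.Helper96.MP

open Complex MeasureTheory Filter Topology
open scoped MatrixGroups

namespace WEX

theorem jne {A B C D : ℤ} {Q : ℤ} (hQ : 0 < Q) (h : A * D - B * C = Q) {z : ℂ} (hz : z ∈ UH) :
    (C : ℂ) * z + (D : ℂ) ≠ 0 := by
  intro h0
  have him : ((C : ℂ) * z + (D : ℂ)).im = 0 := by rw [h0]; simp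
  have hre : ((C : ℂ) * z + (D : ℂ)).re = 0 := by rw [h0]; simp
  have h1 : (C : ℝ) * z.im = 0 := by simpa using him
  have hc : (C : ℝ) = 0 := by
    rcases mul_eq_zero.mp h1 with h2 | h2
    · exact h2
    · exact absurd h2 (ne_of_gt hz)
  have hd : (D : ℝ) = 0 := by
    have : (C : ℝ) * z.re + (D : ℝ) = 0 := by simpa using hre
    rw [hc] at this; linarith
  have hc' : C = 0 := by exact_mod_cast hc
  have hd' : D = 0 := by exact_mod_cast hd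
  rw [hc', hd'] at h
  simp at h
  omega

theorem moim {A B C D : ℤ} {Q : ℤ} (hQ : 0 < Q) (h : A * D - B * C = Q) {z : ℂ} (hz : z ∈ UH) :
    (mo A B C D z).im = (Q : ℝ) * z.im / ‖(C : ℂ) * z + (D : ℂ)‖ ^ 2 := by
  have h1 := Lib.mo_im A B C D z (jne hQ h hz)
  rw [h] at h1
  exact h1

theorem momem {A B C D : ℤ} {Q : ℤ} (hQ : 0 < Q) (h : A * D - B * C = Q) {z : ℂ} (hz : z ∈ UH) :
    mo A B C D z ∈ UH := by
  show 0 < (mo A B C D z).im
  rw [moim hQ h hz]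
  have h1 := jne hQ h hz
  have h2 : (0 : ℝ) < Q := by exact_mod_cast hQ
  have h3 : 0 < z.im := hz
  positivity

/-- automorphy factor of a product -/
theorem jmul (C D A' B' C' D' : ℤ) {z : ℂ} (hne : (C' : ℂ) * z + (D' : ℂ) ≠ 0) :
    (((C * A' + D * C' : ℤ) : ℂ) * z + ((C * B' + D * D' : ℤ) : ℂ)) =
      ((C : ℂ) * mo A' B' C' D' z + (D : ℂ)) * ((C' : ℂ) * z + (D' : ℂ)) := by
  have e2 : mo A' B' C' D' z * ((C' : ℂ) * z + (D' : ℂ)) = (A' : ℂ) * z + (B' : ℂ) := by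
    rw [mo, div_mul_cancel₀ _ hne]
  have e : ((C : ℂ) * mo A' B' C' D' z + (D : ℂ)) * ((C' : ℂ) * z + (D' : ℂ)) =
      (C : ℂ) * (mo A' B' C' D' z * ((C' : ℂ) * z + (D' : ℂ))) +
        (D : ℂ) * ((C' : ℂ) * z + (D' : ℂ)) := by ring
  rw [e, e2]
  push_cast
  ring

theorem momul (A B C D A' B' C' D' : ℤ) {z : ℂ} (hne : (C' : ℂ) * z + (D' : ℂ) ≠ 0) :
    mo (A * A' + B * C') (A * B' + B * D') (C * A' + D * C') (C * B' + D * D') z =
      mo A B C D (mo A' B' C' D' z) := by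
  have h1 := jmul C D A' B' C' D' hne
  have h2 := jmul A B A' B' C' D' hne
  unfold mo
  unfold mo at h1 h2
  rw [h1, h2, mul_div_mul_right _ _ hne]

end WEX

open WEX in
theorem st_WEX (hTQM : ST_TQM) (hQDIF : ST_QDIF) (hQEXP : ST_QEXP) : ST_WEX := by
  intro N Q b hN hQ hb
  obtain ⟨hcx, hex, hadj, hmul, hone⟩ := hTQM N hN
  obtain ⟨A0, B0, C0, D0, h0⟩ := hex Q hQ
  have hQN : Q ∣ N := (Nat.mem_divisors.mp (Finset.mem_filter.mp hQ).1).1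
  have hQpos : 0 < Q := Nat.pos_of_dvd_of_pos hQN hN
  have hQz : (0 : ℤ) < (Q : ℤ) := by exact_mod_cast hQpos
  have hdet0 : A0 * D0 - B0 * C0 = (Q : ℤ) := by rw [h0.1]; ring
  have hQC : (Q : ℂ) ≠ 0 := by exact_mod_cast hQpos.ne'
  -- independence of the matrix
  have hind : ∀ A B C D : ℤ, TQ N Q 1 A B C D → ∀ z ∈ UH,
      (Q : ℂ) / ((C0 : ℂ) * z + (D0 : ℂ)) ^ 2 * qs b (mo A0 B0 C0 D0 z) =
        (Q : ℂ) / ((C : ℂ) * z + (D : ℂ)) ^ 2 * qs b (mo A B C D z) := by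
    intro A B C D hA z hz
    have hj0 := hadj Q 1 A0 B0 C0 D0 h0
    obtain ⟨p, q, r, s, hT, e1, e2, e3, e4⟩ := hmul Q hQ Q hQ 1 A B C D 1 D0 (-B0) (-C0) A0 hA hj0
    rw [(hcx.2 Q hQ Q hQ).2.2.1, one_mul] at hT
    have hg := (hone p q r s).mp hT
    rw [Nat.gcd_self] at e1 e2 e3 e4
    have hne0 : (Q : ℤ) ≠ 0 := hQz.ne'
    have hA1 : A = p * A0 + q * C0 := by
      apply mul_left_cancel₀ hne0
      have : (Q : ℤ) * (p * A0 + q * C0) = (Q * p) * A0 + (Q * q) * C0 := by ring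
      rw [this, ← e1, ← e2, ← hdet0]
      ring
    have hB1 : B = p * B0 + q * D0 := by
      apply mul_left_cancel₀ hne0
      have : (Q : ℤ) * (p * B0 + q * D0) = (Q * p) * B0 + (Q * q) * D0 := by ring
      rw [this, ← e1, ← e2, ← hdet0]
      ring
    have hC1 : C = r * A0 + s * C0 := by
      apply mul_left_cancel₀ hne0
      have : (Q : ℤ) * (r * A0 + s * C0) = (Q * r) * A0 + (Q * s) * C0 := by ring
      rw [this, ← e3, ← e4, ← hdet0]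
      ring
    have hD1 : D = r * B0 + s * D0 := by
      apply mul_left_cancel₀ hne0
      have : (Q : ℤ) * (r * B0 + s * D0) = (Q * r) * B0 + (Q * s) * D0 := by ring
      rw [this, ← e3, ← e4, ← hdet0]
      ring
    have hne := jne hQz hdet0 hz
    have hw := momem hQz hdet0 hz
    rw [hA1, hB1, hC1, hD1, momul p q r s A0 B0 C0 D0 hne, jmul r s A0 B0 C0 D0 hne]
    have hinv := hb.inv (mo A0 B0 C0 D0 z) hw p q r s hg.1 hg.2
    have hne2 : (r : ℂ) * mo A0 B0 C0 D0 z + (s : ℂ) ≠ 0 := jne one_pos hg.1 hw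
    have hinv' : qs b (mo p q r s (mo A0 B0 C0 D0 z)) =
        ((r : ℂ) * mo A0 B0 C0 D0 z + (s : ℂ)) ^ 2 * qs b (mo A0 B0 C0 D0 z) := hinv
    rw [hinv']
    field_simp
  -- the function
  have key1 : DifferentiableOn ℂ (fun z => (Q : ℂ) / ((C0 : ℂ) * z + (D0 : ℂ)) ^ 2 *
      qs b (mo A0 B0 C0 D0 z)) UH := by
    intro z hz
    have hne := jne hQz hdet0 hz
    have hw := momem hQz hdet0 hz
    have hopen : IsOpen UH := isOpen_lt continuous_const Complex.continuous_im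
    have hd1 : DifferentiableAt ℂ (qs b) (mo A0 B0 C0 D0 z) :=
      ((hQDIF N b hN hb).2.1).differentiableAt (hopen.mem_nhds hw)
    have hd2 : DifferentiableAt ℂ (fun z : ℂ => (C0 : ℂ) * z + (D0 : ℂ)) z := by fun_prop
    have hd3 : DifferentiableAt ℂ (mo A0 B0 C0 D0) z := by
      have : DifferentiableAt ℂ (fun z : ℂ => ((A0 : ℂ) * z + (B0 : ℂ)) / ((C0 : ℂ) * z + (D0 : ℂ))) z :=
        DifferentiableAt.div (by fun_prop) hd2 hne
      exact this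
    have hd4 : DifferentiableAt ℂ (fun z : ℂ => (Q : ℂ) / ((C0 : ℂ) * z + (D0 : ℂ)) ^ 2) z :=
      DifferentiableAt.div (differentiableAt_const _) (hd2.pow 2) (pow_ne_zero 2 hne)
    have hd5 : DifferentiableAt ℂ (fun z : ℂ => qs b (mo A0 B0 C0 D0 z)) z :=
      DifferentiableAt.comp z hd1 hd3
    exact (hd4.mul hd5).differentiableWithinAt
  have key2 : ∀ z ∈ UH, ∀ p q r s : ℤ, G0 N p q r s →
      (fun z => (Q : ℂ) / ((C0 : ℂ) * z + (D0 : ℂ)) ^ 2 * qs b (mo A0 B0 C0 D0 z)) (mo p q r s z) =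
        ((r : ℂ) * z + (s : ℂ)) ^ 2 *
      (fun z => (Q : ℂ) / ((C0 : ℂ) * z + (D0 : ℂ)) ^ 2 * qs b (mo A0 B0 C0 D0 z)) z := by
    intro z hz p q r s hg
    have hne := jne hQz hdet0 hz
    have hneg : (r : ℂ) * z + (s : ℂ) ≠ 0 := jne one_pos hg.1 hz
    have hgz : mo p q r s z ∈ UH := momem one_pos hg.1 hz
    have hne3 := jne hQz hdet0 hgz
    have hT : TQ N Q 1 (A0 * p + B0 * r) (A0 * q + B0 * s) (C0 * p + D0 * r) (C0 * q + D0 * s) := by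
      have hQr : (Q : ℤ) ∣ r := dvd_trans (by exact_mod_cast hQN) hg.2
      have hQC0 : (Q : ℤ) ∣ C0 := dvd_trans (by exact_mod_cast hQN) h0.2.2.2
      refine ⟨?_, ?_, ?_, ?_⟩
      · have : (A0 * p + B0 * r) * (C0 * q + D0 * s) - (A0 * q + B0 * s) * (C0 * p + D0 * r) =
          (A0 * D0 - B0 * C0) * (p * s - q * r) := by ring
        rw [this, hg.1, hdet0]; ring
      · exact dvd_add (Dvd.dvd.mul_right h0.2.1 _) (Dvd.dvd.mul_left hQr _)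
      · exact dvd_add (Dvd.dvd.mul_right hQC0 _) (Dvd.dvd.mul_right h0.2.2.1 _)
      · exact dvd_add (Dvd.dvd.mul_right h0.2.2.2 _) (Dvd.dvd.mul_left hg.2 _)
    have h1 := hind _ _ _ _ hT z hz
    show (Q : ℂ) / ((C0 : ℂ) * mo p q r s z + (D0 : ℂ)) ^ 2 * qs b (mo A0 B0 C0 D0 (mo p q r s z)) =
      ((r : ℂ) * z + (s : ℂ)) ^ 2 * ((Q : ℂ) / ((C0 : ℂ) * z + (D0 : ℂ)) ^ 2 *
        qs b (mo A0 B0 C0 D0 z))
    rw [h1, jmul C0 D0 p q r s hneg, momul A0 B0 C0 D0 p q r s hneg]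
    field_simp
  have key3 : ∃ B : ℝ, ∀ z ∈ UH, z.im * ‖(fun z => (Q : ℂ) / ((C0 : ℂ) * z + (D0 : ℂ)) ^ 2 *
      qs b (mo A0 B0 C0 D0 z)) z‖ ≤ B := by
    obtain ⟨B, hB⟩ := hb.bdd
    refine ⟨B, fun z hz => ?_⟩
    have hne := jne hQz hdet0 hz
    have hw := momem hQz hdet0 hz
    have h1 := hB _ hw
    rw [moim hQz hdet0 hz] at h1
    show z.im * ‖(Q : ℂ) / ((C0 : ℂ) * z + (D0 : ℂ)) ^ 2 * qs b (mo A0 B0 C0 D0 z)‖ ≤ B
    rw [norm_mul, norm_div, norm_pow, Complex.norm_natCast]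
    have h2 : z.im * ((Q : ℝ) / ‖(C0 : ℂ) * z + (D0 : ℂ)‖ ^ 2 * ‖qs b (mo A0 B0 C0 D0 z)‖) =
      ((Q : ℤ) : ℝ) * z.im / ‖(C0 : ℂ) * z + (D0 : ℂ)‖ ^ 2 * ‖qs b (mo A0 B0 C0 D0 z)‖ := by
      push_cast
      ring
    rw [h2]
    exact h1
  obtain ⟨c, hc, hcq⟩ := hQEXP N (fun z => (Q : ℂ) / ((C0 : ℂ) * z + (D0 : ℂ)) ^ 2 *
      qs b (mo A0 B0 C0 D0 z)) hN key1 key2 key3
  refine ⟨c, hc, ?_⟩
  intro A B C D hA z hz
  rw [hcq z hz]
  exact hind A B C D hA z hz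

end Pool.Agent.Helper96.MP
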